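import Pool.Agent.H28.LF.T3

/-!
Project LF (`MP_c59857_nt`, THEOREM U): row D5, two references which look equal are equal.
-/

set_option autoImplicit false
set_option linter.unusedSectionVars false

open MeasureTheory ProbabilityTheory Filter Topology Finset
open scoped Nat ENNReal

namespace Pool.Agent.H81.LF

open Pool.Agent.H28.LF
open Pool.Agent.H67.AG (avgP ul Inv Rt Av SA kap JJ TT InvZ nxt triv tow XN PN TN XX PX TX prX Fac)

/-- the pairs which look equal, but are not -/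
def GG (c : Ux) (Λ l : ℕ) : Set (c.X × c.X) :=
  {p | p ∉ c.Eqv ∧ ∀ i, l ≤ i → i < Λ → c.a (c.T^[i] p.1) = c.a (c.T^[i] p.2)}

theorem Eqv_meas (c : Ux) : MeasurableSet c.Eqv := by
  have h : c.Eqv = ⋂ n : ℕ, ({p : c.X × c.X | c.a (c.T^[n] p.1) = c.a (c.T^[n] p.2)} ∩
      {p | c.a (c.T.symm^[n] p.1) = c.a (c.T.symm^[n] p.2)}) := by
    ext p
    simp only [Ux.Eqv, Set.mem_ofPred_eq, Set.mem_iInter, Set.mem_inter_iff]
  rw [h]
  refine MeasurableSet.iInter fun n => MeasurableSet.inter ?_ ?_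
  · exact measurableSet_eq_fun ((c.am.comp (c.T.measurable.iterate n)).comp measurable_fst)
      ((c.am.comp (c.T.measurable.iterate n)).comp measurable_snd)
  · exact measurableSet_eq_fun ((c.am.comp (c.T.symm.measurable.iterate n)).comp measurable_fst)
      ((c.am.comp (c.T.symm.measurable.iterate n)).comp measurable_snd)

theorem GG_meas (c : Ux) (Λ l : ℕ) : MeasurableSet (GG c Λ l) := by
  have h : GG c Λ l = c.Eqvᶜ ∩ ⋂ i : ℕ, ⋂ _ : l ≤ i, ⋂ _ : i < Λ,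
      {p : c.X × c.X | c.a (c.T^[i] p.1) = c.a (c.T^[i] p.2)} := by
    ext p
    simp only [GG, Set.mem_ofPred_eq, Set.mem_iInter, Set.mem_inter_iff, Set.mem_compl_iff]
  rw [h]
  refine (Eqv_meas c).compl.inter (MeasurableSet.iInter fun i => MeasurableSet.iInter fun _ =>
    MeasurableSet.iInter fun _ => ?_)
  exact measurableSet_eq_fun ((c.am.comp (c.T.measurable.iterate i)).comp measurable_fst)
    ((c.am.comp (c.T.measurable.iterate i)).comp measurable_snd)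

theorem pf_D5 (hP : Pool.Agent.H40.AG.T_PXL) (hN : Pool.Agent.H40.AG.T_PNL) : T_D5 := by
  classical
  intro c Z Λ l n R _ θ hZ hfst hsnd hθ
  have hp := hP c.X c.μ Z (n + 1) R hfst hsnd
  have : IsProbabilityMeasure (PX c.μ Z (n + 1) R) := hp.1
  have hq := (hN c.X c.μ Z (n + 1)).2.2.2.2
  have hθ0 : 0 ≤ θ := le_trans measureReal_nonneg hθ
  have hsub : c.FE Λ l n ⊆ ⋃ q : Fin (n + 1) × Fin (n + 1),
      {p : XX c.X (n + 1) | q.1 ≠ q.2 ∧ (p.2.1 q.1, p.2.1 q.2) ∈ GG c Λ l} := by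
    rintro p ⟨a, b, hab, h1, h2⟩
    exact Set.mem_iUnion.2 ⟨(a, b), hab, h1, h2⟩
  have hone : ∀ q : Fin (n + 1) × Fin (n + 1), (PX c.μ Z (n + 1) R).real
      {p : XX c.X (n + 1) | q.1 ≠ q.2 ∧ (p.2.1 q.1, p.2.1 q.2) ∈ GG c Λ l} ≤ θ := by
    intro q
    by_cases hab : q.1 = q.2
    · have h0 : {p : XX c.X (n + 1) | q.1 ≠ q.2 ∧ (p.2.1 q.1, p.2.1 q.2) ∈ GG c Λ l} = ∅ := by
        ext p
        simp [hab]
      rw [h0, measureReal_empty]
      exact hθ0
    · have hmp := (hq q.1 q.2 hab).comp hp.2.2.1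
      have h0 : {p : XX c.X (n + 1) | q.1 ≠ q.2 ∧ (p.2.1 q.1, p.2.1 q.2) ∈ GG c Λ l} =
          ((fun r : XN c.X (n + 1) => (r.2 q.1, r.2 q.2)) ∘ prX c.X (n + 1)) ⁻¹' GG c Λ l := by
        ext p
        simp only [Set.mem_ofPred_eq, Set.mem_preimage, Function.comp_apply]
        exact ⟨fun h => h.2, fun h => ⟨hab, h⟩⟩
      rw [h0, measureReal_def, hmp.measure_preimage (GG_meas c Λ l).nullMeasurableSet]
      exact hθ
  calc (PX c.μ Z (n + 1) R).real (c.FE Λ l n)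
      ≤ (PX c.μ Z (n + 1) R).real (⋃ q : Fin (n + 1) × Fin (n + 1),
        {p : XX c.X (n + 1) | q.1 ≠ q.2 ∧ (p.2.1 q.1, p.2.1 q.2) ∈ GG c Λ l}) :=
        measureReal_mono hsub
    _ ≤ ∑ q : Fin (n + 1) × Fin (n + 1), (PX c.μ Z (n + 1) R).real
        {p : XX c.X (n + 1) | q.1 ≠ q.2 ∧ (p.2.1 q.1, p.2.1 q.2) ∈ GG c Λ l} :=
        measureReal_iUnion_fintype_le _
    _ ≤ ∑ _q : Fin (n + 1) × Fin (n + 1), θ := Finset.sum_le_sum fun q _ => hone q
    _ = ((n : ℝ) + 1) ^ 2 * θ := by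
        rw [Finset.sum_const, Finset.card_univ, Fintype.card_prod, Fintype.card_fin, nsmul_eq_mul]
        push_cast
        ring

end Pool.Agent.H81.LF
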